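import Pool.Agent.R495.MP.Step

namespace R495.MP

theorem t_Base : S_Base := by
  classical
  rintro b h M hb hh ⟨T, hT, hcard⟩
  have hm := hT.map (fun v => (b + 1 - v.1, h + 1 - v.2)) (fun v => (b + 1 - v.1, h + 1 - v.2))
    (by intro v; ext <;> dsimp only <;> ring) (by intro v; ext <;> dsimp only <;> ring)
    (by intro u v huv; unfold Adj at *; dsimp only; omega)
    (by intro u v huv; unfold Adj at *; dsimp only; omega)
  have e1 : (fun v : ℤ × ℤ => ((b + 1 - v.1, h + 1 - v.2) : ℤ × ℤ)) ⁻¹' Rect 1 b 1 h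
      = Rect 1 b 1 h := by
    ext ⟨x, y⟩
    simp only [Set.mem_preimage, Rect, Set.mem_ofPred_eq]
    omega
  have e2 : (fun v : ℤ × ℤ => ((b + 1 - v.1, h + 1 - v.2) : ℤ × ℤ)) ⁻¹' {(1, 1)}
      = {(b, h)} := by
    ext ⟨x, y⟩
    simp only [Set.mem_preimage, Set.mem_singleton_iff, Prod.mk.injEq]
    omega
  rw [e1, e2] at hm
  have := base_MS hb hh hm
  refine ⟨_, this, ?_⟩
  rw [Finset.card_insert_of_notMem, Finset.card_image_of_injective, hcard]
  · intro u v huv
    simp only [Prod.mk.injEq] at huv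
    exact Prod.ext (by omega) (by omega)
  · intro hmem
    have := hm.sub _ hmem
    simp only [Rect, Set.mem_ofPred_eq] at this
    omega

theorem t_Step : S_Step := by
  classical
  rintro q p b h N M hb hbq hh hp ⟨A, hA, hAc⟩ ⟨T, hT, hTc⟩
  have hm := hT.map (fun v => (v.1, v.2 + (p + 2))) (fun v => (v.1, v.2 - (p + 2)))
    (by intro v; ext <;> dsimp only <;> ring) (by intro v; ext <;> dsimp only <;> ring)
    (by intro u v huv; unfold Adj at *; dsimp only; omega)
    (by intro u v huv; unfold Adj at *; dsimp only; omega)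
  have e1 : (fun v : ℤ × ℤ => ((v.1, v.2 - (p + 2)) : ℤ × ℤ)) ⁻¹' Rect 1 b 1 h
      = Rect 1 b (p + 3) (p + 2 + h) := by
    ext ⟨x, y⟩
    simp only [Set.mem_preimage, Rect, Set.mem_ofPred_eq]
    omega
  have e2 : (fun v : ℤ × ℤ => ((v.1, v.2 - (p + 2)) : ℤ × ℤ)) ⁻¹' {(1, 1)}
      = {(1, p + 3)} := by
    ext ⟨x, y⟩
    simp only [Set.mem_preimage, Set.mem_singleton_iff, Prod.mk.injEq]
    omega
  rw [e1, e2] at hm
  set T1 := T.image (fun v : ℤ × ℤ => ((v.1, v.2 + (p + 2)) : ℤ × ℤ)) with hT1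
  have hT1c : T1.card = M := by
    rw [hT1, Finset.card_image_of_injective, hTc]
    intro u v huv
    simp only [Prod.mk.injEq] at huv
    exact Prod.ext (by omega) (by omega)
  have hs := step_MS (x1 := 1) (x2 := q) (x3 := b) (y1 := 1) (y2 := p) (y4 := p + 2 + h)
    hb hbq hp (by omega) hA hm
  have hm2 := hs.map (fun v => (v.1 + 1, v.2)) (fun v => (v.1 - 1, v.2))
    (by intro v; ext <;> dsimp only <;> ring) (by intro v; ext <;> dsimp only <;> ring)
    (by intro u v huv; unfold Adj at *; dsimp only; omega)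
    (by intro u v huv; unfold Adj at *; dsimp only; omega)
  have e3 : (fun v : ℤ × ℤ => ((v.1 - 1, v.2) : ℤ × ℤ)) ⁻¹' Rect (1 - 1) (q + 1) 1 (p + 2 + h + 1)
      = Rect 1 (q + 2) 1 (p + h + 3) := by
    ext ⟨x, y⟩
    simp only [Set.mem_preimage, Rect, Set.mem_ofPred_eq]
    omega
  have e4 : (fun v : ℤ × ℤ => ((v.1 - 1, v.2) : ℤ × ℤ)) ⁻¹'
      {v | v.2 = p + 2 + h + 1 ∧ v.1 < q + 1} = {v | v.2 = p + h + 3 ∧ v.1 < q + 2} := by
    ext ⟨x, y⟩
    simp only [Set.mem_preimage, Set.mem_ofPred_eq]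
    omega
  rw [e3, e4] at hm2
  refine ⟨_, hm2, ?_⟩
  rw [Finset.card_image_of_injective]
  · rw [Finset.card_insert_of_notMem, Finset.card_insert_of_notMem, Finset.card_union_of_disjoint,
      hAc, hT1c]
    · rw [Finset.disjoint_left]
      intro v hv1 hv2
      have h1 := hA.sub v hv1
      have h2 := hm.sub v hv2
      simp only [Rect, Set.mem_ofPred_eq] at h1 h2
      omega
    · intro hv
      rcases Finset.mem_union.1 hv with hv | hv
      · have h1 := hA.sub _ hv
        simp only [Rect, Set.mem_ofPred_eq] at h1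
        omega
      · have h1 := hm.sub _ hv
        simp only [Rect, Set.mem_ofPred_eq] at h1
        omega
    · intro hv
      rcases Finset.mem_insert.1 hv with hv | hv
      · simp only [Prod.mk.injEq] at hv; omega
      rcases Finset.mem_union.1 hv with hv | hv
      · have h1 := hA.sub _ hv
        simp only [Rect, Set.mem_ofPred_eq] at h1
        omega
      · have h1 := hm.sub _ hv
        simp only [Rect, Set.mem_ofPred_eq] at h1
        omega
  · intro u v huv
    simp only [Prod.mk.injEq] at huv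
    exact Prod.ext (by omega) (by omega)

end R495.MP
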