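import Pool.Agent.R495.MP.Defs

namespace R495.MP

theorem closed_rect (x1 x2 y1 y2 : ℤ) : Closed (Rect x1 x2 y1 y2) := by
  rintro ⟨a, b⟩ ⟨c, d⟩ ⟨e, f⟩ hne h1 h2 h3 h4
  have hne' : ¬ (c = e ∧ d = f) := by
    rintro ⟨rfl, rfl⟩; exact hne rfl
  simp only [Adj, Rect, Set.mem_ofPred_eq] at *
  omega

/-- `Far X Y`: no two sites at distance at most two. -/
def Far (X Y : Set (ℤ × ℤ)) : Prop := ∀ u ∈ X, ∀ w ∈ Y,
  3 ≤ (u.1 - w.1) + (u.2 - w.2) ∨ (u.1 - w.1) + (u.2 - w.2) ≤ -3 ∨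
  3 ≤ (u.1 - w.1) - (u.2 - w.2) ∨ (u.1 - w.1) - (u.2 - w.2) ≤ -3

theorem closed_union {X Y : Set (ℤ × ℤ)} (hX : Closed X) (hY : Closed Y) (h : Far X Y) :
    Closed (X ∪ Y) := by
  intro v u w hne h1 h2 h3 h4
  rcases h3 with h3 | h3 <;> rcases h4 with h4 | h4
  · exact Or.inl (hX v u w hne h1 h2 h3 h4)
  · exfalso
    have := h u h3 w h4
    obtain ⟨a, b⟩ := v; obtain ⟨c, d⟩ := u; obtain ⟨e, f⟩ := w
    simp only [Adj] at *
    omega
  · exfalso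
    have := h w h4 u h3
    obtain ⟨a, b⟩ := v; obtain ⟨c, d⟩ := u; obtain ⟨e, f⟩ := w
    simp only [Adj] at *
    omega
  · exact Or.inr (hY v u w hne h1 h2 h3 h4)

theorem far_union_left {X Y Z : Set (ℤ × ℤ)} (h1 : Far X Z) (h2 : Far Y Z) : Far (X ∪ Y) Z := by
  rintro u (hu | hu) w hw
  · exact h1 u hu w hw
  · exact h2 u hu w hw

/-- fill a row next to a full row -/
theorem row_fill {X : Set (ℤ × ℤ)} (hX : Closed X) {x1 x2 y y' x0 : ℤ}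
    (hrow : ∀ x, x1 ≤ x → x ≤ x2 → (x, y) ∈ X) (hy : y' = y + 1 ∨ y' + 1 = y)
    (h1 : x1 ≤ x0) (h2 : x0 ≤ x2) (h0 : (x0, y') ∈ X) :
    ∀ x, x1 ≤ x → x ≤ x2 → (x, y') ∈ X := by
  have up : ∀ x, x0 ≤ x → x ≤ x2 → (x, y') ∈ X := by
    intro x hx
    induction x, hx using Int.le_induction with
    | base => intro _; exact h0
    | succ n hn ih =>
      intro hx2
      have a1 := ih (by omega)
      have a2 := hrow (n + 1) (by omega) (by omega)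
      refine hX (n + 1, y') (n, y') (n + 1, y) ?_ ?_ ?_ a1 a2
      · intro h; simp only [Prod.mk.injEq] at h; omega
      · unfold Adj; dsimp only; omega
      · unfold Adj; dsimp only; omega
  have down : ∀ x, x ≤ x0 → x1 ≤ x → (x, y') ∈ X := by
    intro x hx
    induction x, hx using Int.leInductionDown with
    | base => intro _; exact h0
    | pred n hn ih =>
      intro hx2
      have a1 := ih (by omega)
      have a2 := hrow (n - 1) (by omega) (by omega)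
      refine hX (n - 1, y') (n, y') (n - 1, y) ?_ ?_ ?_ a1 a2
      · intro h; simp only [Prod.mk.injEq] at h; omega
      · unfold Adj; dsimp only; omega
      · unfold Adj; dsimp only; omega
  intro x hx1 hx2
  rcases le_total x x0 with h | h
  · exact down x h hx1
  · exact up x h hx2

/-- fill a column next to a full column -/
theorem col_fill {X : Set (ℤ × ℤ)} (hX : Closed X) {y1 y2 x x' y0 : ℤ}
    (hcol : ∀ y, y1 ≤ y → y ≤ y2 → (x, y) ∈ X) (hx : x' = x + 1 ∨ x' + 1 = x)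
    (h1 : y1 ≤ y0) (h2 : y0 ≤ y2) (h0 : (x', y0) ∈ X) :
    ∀ y, y1 ≤ y → y ≤ y2 → (x', y) ∈ X := by
  have hX' : Closed {v : ℤ × ℤ | (v.2, v.1) ∈ X} := by
    intro v u w hne h1 h2 h3 h4
    refine hX (v.2, v.1) (u.2, u.1) (w.2, w.1) ?_ ?_ ?_ h3 h4
    · intro h
      apply hne
      simp only [Prod.mk.injEq] at h
      exact Prod.ext h.2 h.1
    · simp only [Adj] at *; omega
    · simp only [Adj] at *; omega
  intro y hy1 hy2
  exact row_fill (X := {v : ℤ × ℤ | (v.2, v.1) ∈ X}) hX' (y := x) (y' := x') (x1 := y1) (x2 := y2)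
    (x0 := y0) (fun z a b => hcol z a b) hx h1 h2 h0 y hy1 hy2

/-- rectangle version: extend upwards/downwards/left/right by one -/
theorem ext_up {X : Set (ℤ × ℤ)} (hX : Closed X) {x1 x2 y1 y2 x0 : ℤ} (hR : Rect x1 x2 y1 y2 ⊆ X)
    (hy : y1 ≤ y2) (h1 : x1 ≤ x0) (h2 : x0 ≤ x2) (h0 : (x0, y2 + 1) ∈ X) :
    Rect x1 x2 y1 (y2 + 1) ⊆ X := by
  rintro ⟨a, b⟩ hv
  simp only [Rect, Set.mem_ofPred_eq] at hv
  by_cases hb : b ≤ y2
  · exact hR ⟨hv.1, hv.2.1, hv.2.2.1, hb⟩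
  · have : b = y2 + 1 := by omega
    subst this
    exact row_fill hX (y := y2) (fun x a b => hR ⟨a, b, hy, le_refl _⟩) (Or.inl rfl) h1 h2 h0 a
      hv.1 hv.2.1

theorem ext_down {X : Set (ℤ × ℤ)} (hX : Closed X) {x1 x2 y1 y2 x0 : ℤ}
    (hR : Rect x1 x2 y1 y2 ⊆ X)
    (hy : y1 ≤ y2) (h1 : x1 ≤ x0) (h2 : x0 ≤ x2) (h0 : (x0, y1 - 1) ∈ X) :
    Rect x1 x2 (y1 - 1) y2 ⊆ X := by
  rintro ⟨a, b⟩ hv
  simp only [Rect, Set.mem_ofPred_eq] at hv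
  by_cases hb : y1 ≤ b
  · exact hR ⟨hv.1, hv.2.1, hb, hv.2.2.2⟩
  · have : b = y1 - 1 := by omega
    subst this
    exact row_fill hX (y := y1) (fun x a b => hR ⟨a, b, le_refl _, hy⟩) (Or.inr (by ring)) h1 h2 h0
      a hv.1 hv.2.1

theorem ext_right {X : Set (ℤ × ℤ)} (hX : Closed X) {x1 x2 y1 y2 y0 : ℤ}
    (hR : Rect x1 x2 y1 y2 ⊆ X)
    (hx : x1 ≤ x2) (h1 : y1 ≤ y0) (h2 : y0 ≤ y2) (h0 : (x2 + 1, y0) ∈ X) :
    Rect x1 (x2 + 1) y1 y2 ⊆ X := by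
  rintro ⟨a, b⟩ hv
  simp only [Rect, Set.mem_ofPred_eq] at hv
  by_cases hb : a ≤ x2
  · exact hR ⟨hv.1, hb, hv.2.2⟩
  · have : a = x2 + 1 := by omega
    subst this
    exact col_fill hX (x := x2) (fun y a b => hR ⟨hx, le_refl _, a, b⟩) (Or.inl rfl) h1 h2 h0 b
      hv.2.2.1 hv.2.2.2

theorem ext_left {X : Set (ℤ × ℤ)} (hX : Closed X) {x1 x2 y1 y2 y0 : ℤ}
    (hR : Rect x1 x2 y1 y2 ⊆ X)
    (hx : x1 ≤ x2) (h1 : y1 ≤ y0) (h2 : y0 ≤ y2) (h0 : (x1 - 1, y0) ∈ X) :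
    Rect (x1 - 1) x2 y1 y2 ⊆ X := by
  rintro ⟨a, b⟩ hv
  simp only [Rect, Set.mem_ofPred_eq] at hv
  by_cases hb : x1 ≤ a
  · exact hR ⟨hb, hv.2.1, hv.2.2⟩
  · have : a = x1 - 1 := by omega
    subst this
    exact col_fill hX (x := x1) (fun y a b => hR ⟨le_refl _, hx, a, b⟩) (Or.inr (by ring)) h1 h2 h0
      b hv.2.2.1 hv.2.2.2

/-- transfer along a lattice symmetry -/
theorem MS.map {R bad : Set (ℤ × ℤ)} {A : Finset (ℤ × ℤ)} (h : MS R bad A)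
    (f g : ℤ × ℤ → ℤ × ℤ) (hfg : ∀ v, f (g v) = v) (hgf : ∀ v, g (f v) = v)
    (hf : ∀ u v, Adj u v → Adj (f u) (f v)) (hg : ∀ u v, Adj u v → Adj (g u) (g v)) :
    MS (g ⁻¹' R) (g ⁻¹' bad) (A.image f) := by
  classical
  have key : ∀ (p q : ℤ × ℤ → ℤ × ℤ), (∀ v, q (p v) = v) → (∀ u v, Adj u v → Adj (p u) (p v)) →
      ∀ X, Closed X → Closed (p ⁻¹' X) := by
    intro p q hqp hp X hX v u w hne h1 h2 h3 h4
    refine hX (p v) (p u) (p w) ?_ (hp _ _ h1) (hp _ _ h2) h3 h4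
    intro h
    apply hne
    rw [← hqp u, ← hqp w, h]
  refine ⟨?_, ?_, ?_⟩
  · intro v hv
    obtain ⟨a, ha, rfl⟩ := Finset.mem_image.1 hv
    simp only [Set.mem_preimage, hgf]
    exact h.sub a ha
  · intro X hX hA v hv
    have := h.span (f ⁻¹' X) (key f g hgf hf X hX) (fun a ha => hA _ (Finset.mem_image_of_mem f ha))
      hv
    simpa [hfg] using this
  · intro s hs
    obtain ⟨a, ha, rfl⟩ := Finset.mem_image.1 hs
    obtain ⟨X, hX, hXR, hXA, hXb⟩ := h.avoid a ha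
    refine ⟨g ⁻¹' X, key g f hfg hg X hX, fun v hv => hXR hv, ?_, fun v hv => hXb _ hv⟩
    intro v hv hne
    obtain ⟨b, hb, rfl⟩ := Finset.mem_image.1 hv
    simp only [Set.mem_preimage, hgf]
    exact hXA b hb (fun h => hne (by rw [h]))

theorem MS.mono {R bad bad' : Set (ℤ × ℤ)} {A : Finset (ℤ × ℤ)} (h : MS R bad A)
    (hb : bad' ⊆ bad) : MS R bad' A :=
  ⟨h.sub, h.span, fun s hs => by
    obtain ⟨X, h1, h2, h3, h4⟩ := h.avoid s hs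
    exact ⟨X, h1, h2, h3, fun v hv hv' => h4 v hv (hb hv')⟩⟩

end R495.MP
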