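import Mathlib

/-!
Largest minimal percolating sets (MP_849d81_co): `E(n) ≥ (2/15) n² - 50 n^{3/2}`.
Definitions and statements of the pieces.
-/

namespace R495.MP

/-- The four neighbours of a site of `ℤ²`. -/
def nbrs (v : ℤ × ℤ) : Finset (ℤ × ℤ) :=
  {(v.1 + 1, v.2), (v.1 - 1, v.2), (v.1, v.2 + 1), (v.1, v.2 - 1)}

/-- The grid `[n]²`. -/
noncomputable def grid (n : ℕ) : Finset (ℤ × ℤ) := Finset.Icc 1 (n : ℤ) ×ˢ Finset.Icc 1 (n : ℤ)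

/-- One step of 2-neighbour bootstrap percolation on `[n]²`. -/
noncomputable def step (n : ℕ) (X : Finset (ℤ × ℤ)) : Finset (ℤ × ℤ) :=
  X ∪ (grid n).filter (fun v => 2 ≤ (nbrs v ∩ X).card)

/-- `A` percolates in `[n]²`. -/
def Percolates (n : ℕ) (A : Finset (ℤ × ℤ)) : Prop := ∃ t : ℕ, (step n)^[t] A = grid n

/-- Minimal (under inclusion) percolating sets of `[n]²`. -/
def MinPerc (n : ℕ) (A : Finset (ℤ × ℤ)) : Prop :=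
  A ⊆ grid n ∧ Percolates n A ∧ ∀ B : Finset (ℤ × ℤ), B ⊂ A → ¬ Percolates n B

/-- `E(n)`, the largest cardinality of a minimal percolating set of `[n]²`. -/
noncomputable def E (n : ℕ) : ℕ := sSup {k : ℕ | ∃ A : Finset (ℤ × ℤ), MinPerc n A ∧ A.card = k}

/-! ### working definitions -/

/-- Adjacency, in a form `omega` understands. -/
def Adj (a b : ℤ × ℤ) : Prop :=
  (a.1 = b.1 ∧ (a.2 = b.2 + 1 ∨ a.2 + 1 = b.2)) ∨ (a.2 = b.2 ∧ (a.1 = b.1 + 1 ∨ a.1 + 1 = b.1))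

/-- Closed sets of the 2-neighbour rule in the whole plane. -/
def Closed (X : Set (ℤ × ℤ)) : Prop :=
  ∀ v u w : ℤ × ℤ, u ≠ w → Adj v u → Adj v w → u ∈ X → w ∈ X → v ∈ X

def Rect (x1 x2 y1 y2 : ℤ) : Set (ℤ × ℤ) := {v | x1 ≤ v.1 ∧ v.1 ≤ x2 ∧ y1 ≤ v.2 ∧ v.2 ≤ y2}

/-- `A` spans `R`; if one site of `A` is removed then the rest stays inside a closed subset of `R`
disjoint from `bad`. -/
structure MS (R bad : Set (ℤ × ℤ)) (A : Finset (ℤ × ℤ)) : Prop where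
  sub : ∀ v ∈ A, v ∈ R
  span : ∀ X : Set (ℤ × ℤ), Closed X → (∀ v ∈ A, v ∈ X) → R ⊆ X
  avoid : ∀ s ∈ A, ∃ X : Set (ℤ × ℤ), Closed X ∧ X ⊆ R ∧ (∀ v ∈ A, v ≠ s → v ∈ X) ∧
    ∀ v ∈ X, v ∉ bad

/-- corner type -/
def Gc (q h : ℤ) (N : ℕ) : Prop :=
  ∃ T : Finset (ℤ × ℤ), MS (Rect 1 q 1 h) {(1, 1)} T ∧ T.card = N

/-- side type -/
def Fc (q p : ℤ) (N : ℕ) : Prop :=
  ∃ T : Finset (ℤ × ℤ), MS (Rect 1 q 1 p) {v | v.2 = p ∧ v.1 < q} T ∧ T.card = N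

/-! ### statements of the pieces -/

/-- a `2 × 3j` strip -/
def S_Line : Prop := ∀ j : ℕ, 1 ≤ j → Gc (3 * j) 2 (2 * j + 1)

/-- bridge to the process -/
def S_Bridge : Prop := ∀ (n N : ℕ), 1 ≤ n → Gc n n N → N ≤ E n

/-- padding -/
def S_Pad : Prop := ∀ (n : ℤ) (N : ℕ), 1 ≤ n → Gc n n N → Gc (n + 1) (n + 1) (N + 1)

def S_Base : Prop := ∀ (b h : ℤ) (M : ℕ), 1 ≤ b → 1 ≤ h → Gc b h M → Fc (b + 1) (h + 1) (M + 1)

def S_Step : Prop := ∀ (q p b h : ℤ) (N M : ℕ), 1 ≤ b → b < q → 1 ≤ h → 1 ≤ p →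
  Fc q p N → Gc b h M → Fc (q + 2) (p + h + 3) (N + M + 2)

def S_FG : Prop := ∀ (q p : ℤ) (N : ℕ), 2 ≤ q → 1 ≤ p → Fc q p N → Gc q p N

/-- the one-parameter family of squares -/
def S_Family : Prop := ∀ t : ℕ,
  Gc (45 * (t : ℤ) ^ 2 + 48 * t + 10) (45 * (t : ℤ) ^ 2 + 48 * t + 10)
    (270 * t ^ 4 + 486 * t ^ 3 + 339 * t ^ 2 + 114 * t + 15)

/-- final statement -/
def S_Final : Prop :=
  (∀ n : ℕ, (2 / 15 : ℝ) * (n : ℝ) ^ 2 - 50 * (n : ℝ) * Real.sqrt n ≤ (E n : ℝ)) ∧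
  ∀ c : ℝ, Filter.Tendsto (fun n : ℕ => (E n : ℝ) / (n : ℝ) ^ 2) Filter.atTop (nhds c) →
    2 / 15 ≤ c ∧ 4 / 33 < c

end R495.MP
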