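import Pool.Agent.R495.MP.Core

namespace R495.MP

theorem rect_single (a b : ℤ) : Rect a a b b = {(a, b)} := by
  ext ⟨x, y⟩
  simp only [Rect, Set.mem_ofPred_eq, Set.mem_singleton_iff, Prod.mk.injEq]
  omega

theorem closed_single (a b : ℤ) : Closed ({(a, b)} : Set (ℤ × ℤ)) := by
  rw [← rect_single]; exact closed_rect _ _ _ _

/-- adding a diagonal site at the avoided upper right corner -/
theorem base_MS {x1 x2 y1 y2 : ℤ} {T : Finset (ℤ × ℤ)} (hx : x1 ≤ x2) (hy : y1 ≤ y2)
    (hT : MS (Rect x1 x2 y1 y2) {(x2, y2)} T) :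
    MS (Rect x1 (x2 + 1) y1 (y2 + 1)) {v | v.2 = y2 + 1 ∧ v.1 < x2 + 1}
      (insert (x2 + 1, y2 + 1) T) := by
  refine ⟨?_, ?_, ?_⟩
  · intro v hv
    rcases Finset.mem_insert.1 hv with rfl | hv
    · simp only [Rect, Set.mem_ofPred_eq]; omega
    · have := hT.sub v hv
      simp only [Rect, Set.mem_ofPred_eq] at *; omega
  · intro X hX hA
    have h1 : Rect x1 x2 y1 y2 ⊆ X := hT.span X hX (fun v hv => hA v (Finset.mem_insert_of_mem hv))
    have hc : (x2, y2) ∈ X := h1 ⟨hx, le_refl _, hy, le_refl _⟩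
    have hd : (x2 + 1, y2 + 1) ∈ X := hA _ (Finset.mem_insert_self _ _)
    have h2 : (x2 + 1, y2) ∈ X := by
      refine hX (x2 + 1, y2) (x2, y2) (x2 + 1, y2 + 1) ?_ ?_ ?_ hc hd
      · intro h; simp only [Prod.mk.injEq] at h; omega
      · unfold Adj; dsimp only; omega
      · unfold Adj; dsimp only; omega
    have h3 := ext_right hX h1 hx hy (le_refl _) h2
    exact ext_up hX h3 hy (show x1 ≤ x2 + 1 by omega) (le_refl _) hd
  · intro s hs
    by_cases hsd : s = (x2 + 1, y2 + 1)
    · subst hsd
      refine ⟨Rect x1 x2 y1 y2, closed_rect _ _ _ _, ?_, ?_, ?_⟩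
      · intro v hv
        simp only [Rect, Set.mem_ofPred_eq] at *; omega
      · intro v hv hne
        rcases Finset.mem_insert.1 hv with rfl | hv
        · exact absurd rfl hne
        · exact hT.sub v hv
      · intro v hv
        simp only [Rect, Set.mem_ofPred_eq] at *; omega
    · have hsT : s ∈ T := by
        rcases Finset.mem_insert.1 hs with h | h
        · exact absurd h hsd
        · exact h
      obtain ⟨X, hX, hXR, hXA, hXb⟩ := hT.avoid s hsT
      refine ⟨X ∪ {(x2 + 1, y2 + 1)}, closed_union hX (closed_single _ _) ?_, ?_, ?_, ?_⟩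
      · rintro ⟨a, b⟩ hu w hw
        rw [Set.mem_singleton_iff] at hw
        subst hw
        have h1 := hXR hu
        have h2 := hXb _ hu
        simp only [Rect, Set.mem_ofPred_eq, Set.mem_singleton_iff, Prod.mk.injEq] at h1 h2
        dsimp only
        omega
      · rintro ⟨a, b⟩ (hv | hv)
        · have h1 := hXR hv
          simp only [Rect, Set.mem_ofPred_eq] at *; omega
        · simp only [Set.mem_singleton_iff, Prod.mk.injEq] at hv
          simp only [Rect, Set.mem_ofPred_eq]; omega
      · intro v hv hne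
        rcases Finset.mem_insert.1 hv with rfl | hv
        · exact Or.inr rfl
        · exact Or.inl (hXA v hv hne)
      · rintro ⟨a, b⟩ (hv | hv)
        · have h1 := hXR hv
          simp only [Rect, Set.mem_ofPred_eq] at *; omega
        · simp only [Set.mem_singleton_iff, Prod.mk.injEq] at hv
          simp only [Set.mem_ofPred_eq]; omega

/-- the stacking step -/
theorem step_MS {x1 x2 x3 y1 y2 y4 : ℤ} {A T : Finset (ℤ × ℤ)} (h13 : x1 ≤ x3) (h32 : x3 < x2)
    (hy : y1 ≤ y2) (hy4 : y2 + 3 ≤ y4)
    (hA : MS (Rect x1 x2 y1 y2) {v | v.2 = y2 ∧ v.1 < x2} A)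
    (hT : MS (Rect x1 x3 (y2 + 3) y4) {(x1, y2 + 3)} T) :
    MS (Rect (x1 - 1) (x2 + 1) y1 (y4 + 1)) {v | v.2 = y4 + 1 ∧ v.1 < x2 + 1}
      (insert (x1 - 1, y2 + 2) (insert (x2 + 1, y4 + 1) (A ∪ T))) := by
  refine ⟨?_, ?_, ?_⟩
  · intro v hv
    rcases Finset.mem_insert.1 hv with rfl | hv
    · simp only [Rect, Set.mem_ofPred_eq]; omega
    rcases Finset.mem_insert.1 hv with rfl | hv
    · simp only [Rect, Set.mem_ofPred_eq]; omega
    rcases Finset.mem_union.1 hv with hv | hv
    · have := hA.sub v hv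
      simp only [Rect, Set.mem_ofPred_eq] at *; omega
    · have := hT.sub v hv
      simp only [Rect, Set.mem_ofPred_eq] at *; omega
  · intro X hX hS
    have hc : (x1 - 1, y2 + 2) ∈ X := hS _ (Finset.mem_insert_self _ _)
    have hd : (x2 + 1, y4 + 1) ∈ X :=
      hS _ (Finset.mem_insert_of_mem (Finset.mem_insert_self _ _))
    have hR : Rect x1 x2 y1 y2 ⊆ X := hA.span X hX (fun v hv => hS v
      (Finset.mem_insert_of_mem (Finset.mem_insert_of_mem (Finset.mem_union_left _ hv))))
    have hTT : Rect x1 x3 (y2 + 3) y4 ⊆ X := hT.span X hX (fun v hv => hS v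
      (Finset.mem_insert_of_mem (Finset.mem_insert_of_mem (Finset.mem_union_right _ hv))))
    -- T' : attach c
    have ht : (x1, y2 + 3) ∈ X := hTT ⟨le_refl _, h13, le_refl _, hy4⟩
    have hl : (x1 - 1, y2 + 3) ∈ X := by
      refine hX (x1 - 1, y2 + 3) (x1, y2 + 3) (x1 - 1, y2 + 2) ?_ ?_ ?_ ht hc
      · intro h; simp only [Prod.mk.injEq] at h; omega
      · unfold Adj; dsimp only; omega
      · unfold Adj; dsimp only; omega
    have hT1 := ext_left hX hTT h13 (le_refl _) hy4 hl
    have hT2 : Rect (x1 - 1) x3 (y2 + 3 - 1) y4 ⊆ X := by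
      refine ext_down hX hT1 hy4 (le_refl _) (show x1 - 1 ≤ x3 by omega) ?_
      have : y2 + 3 - 1 = y2 + 2 := by ring
      rw [this]; exact hc
    -- the row y2 + 1
    have hm : (x1, y2 + 1) ∈ X := by
      refine hX (x1, y2 + 1) (x1, y2) (x1, y2 + 2) ?_ ?_ ?_ (hR ⟨le_refl _, by omega, hy, le_refl _⟩)
        (hT2 ⟨by dsimp only; omega, h13, by dsimp only; omega, by dsimp only; omega⟩)
      · intro h; simp only [Prod.mk.injEq] at h; omega
      · unfold Adj; dsimp only; omega
      · unfold Adj; dsimp only; omega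
    have hR1 : Rect x1 x2 y1 (y2 + 1) ⊆ X :=
      ext_up hX hR hy (le_refl _) (by omega) hm
    -- column block x1..x3, all rows
    have hB : Rect x1 x3 y1 y4 ⊆ X := by
      rintro ⟨a, b⟩ hv
      simp only [Rect, Set.mem_ofPred_eq] at hv
      by_cases hb : b ≤ y2 + 1
      · exact hR1 ⟨hv.1, by dsimp only; omega, hv.2.2.1, hb⟩
      · exact hT2 ⟨by dsimp only; omega, hv.2.1, by dsimp only; omega, hv.2.2.2⟩
    -- extend to the right up to x2
    have hB2 : ∀ x, x3 ≤ x → x ≤ x2 → Rect x1 x y1 y4 ⊆ X := by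
      intro x hx
      induction x, hx using Int.leInduction with
      | base => intro _; exact hB
      | succ n hn ih =>
        intro h2
        exact ext_right hX (ih (by omega)) (by omega) hy (by omega)
          (hR ⟨by dsimp only; omega, h2, hy, le_refl _⟩)
    have hB3 := hB2 x2 (by omega) (le_refl _)
    have hB4 : Rect (x1 - 1) x2 y1 y4 ⊆ X :=
      ext_left hX hB3 (by omega) (show y1 ≤ y2 + 2 by omega) (by omega) hc
    -- attach d
    have hc2 : (x2, y4) ∈ X := hB4 ⟨by dsimp only; omega, le_refl _, by dsimp only; omega, le_refl _⟩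
    have h2 : (x2 + 1, y4) ∈ X := by
      refine hX (x2 + 1, y4) (x2, y4) (x2 + 1, y4 + 1) ?_ ?_ ?_ hc2 hd
      · intro h; simp only [Prod.mk.injEq] at h; omega
      · unfold Adj; dsimp only; omega
      · unfold Adj; dsimp only; omega
    have h3 := ext_right hX hB4 (by omega) (show y1 ≤ y4 by omega) (le_refl _) h2
    exact ext_up hX h3 (by omega) (show x1 - 1 ≤ x2 + 1 by omega) (le_refl _) hd
  · intro s hs
    -- the four kinds of removed sites
    by_cases hsc : s = (x1 - 1, y2 + 2)
    · subst hsc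
      refine ⟨(Rect x1 x2 y1 y2 ∪ Rect x1 x3 (y2 + 3) y4) ∪ {(x2 + 1, y4 + 1)},
        closed_union (closed_union (closed_rect _ _ _ _) (closed_rect _ _ _ _) ?_)
          (closed_single _ _) (far_union_left ?_ ?_), ?_, ?_, ?_⟩
      · rintro ⟨a, b⟩ hu ⟨c, d⟩ hw
        simp only [Rect, Set.mem_ofPred_eq] at *; omega
      · rintro ⟨a, b⟩ hu ⟨c, d⟩ hw
        simp only [Rect, Set.mem_ofPred_eq, Set.mem_singleton_iff, Prod.mk.injEq] at *; omega
      · rintro ⟨a, b⟩ hu ⟨c, d⟩ hw
        simp only [Rect, Set.mem_ofPred_eq, Set.mem_singleton_iff, Prod.mk.injEq] at *; omega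
      · rintro ⟨a, b⟩ ((hv | hv) | hv) <;>
          simp only [Rect, Set.mem_ofPred_eq, Set.mem_singleton_iff, Prod.mk.injEq] at * <;> omega
      · intro v hv hne
        rcases Finset.mem_insert.1 hv with h | hv
        · exact absurd h hne
        rcases Finset.mem_insert.1 hv with rfl | hv
        · exact Or.inr rfl
        rcases Finset.mem_union.1 hv with hv | hv
        · exact Or.inl (Or.inl (hA.sub v hv))
        · exact Or.inl (Or.inr (hT.sub v hv))
      · rintro ⟨a, b⟩ ((hv | hv) | hv) <;>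
          simp only [Rect, Set.mem_ofPred_eq, Set.mem_singleton_iff, Prod.mk.injEq] at * <;> omega
    by_cases hsd : s = (x2 + 1, y4 + 1)
    · subst hsd
      refine ⟨Rect (x1 - 1) x2 y1 y4, closed_rect _ _ _ _, ?_, ?_, ?_⟩
      · rintro ⟨a, b⟩ hv
        simp only [Rect, Set.mem_ofPred_eq] at *; omega
      · intro v hv hne
        rcases Finset.mem_insert.1 hv with rfl | hv
        · simp only [Rect, Set.mem_ofPred_eq]; omega
        rcases Finset.mem_insert.1 hv with h | hv
        · exact absurd h hne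
        rcases Finset.mem_union.1 hv with hv | hv
        · have := hA.sub v hv
          simp only [Rect, Set.mem_ofPred_eq] at *; omega
        · have := hT.sub v hv
          simp only [Rect, Set.mem_ofPred_eq] at *; omega
      · rintro ⟨a, b⟩ hv
        simp only [Rect, Set.mem_ofPred_eq] at *; omega
    have hsAT : s ∈ A ∨ s ∈ T := by
      rcases Finset.mem_insert.1 hs with h | hs
      · exact absurd h hsc
      rcases Finset.mem_insert.1 hs with h | hs
      · exact absurd h hsd
      exact Finset.mem_union.1 hs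
    rcases hsAT with hsA | hsT
    · -- removed site in the lower block
      obtain ⟨X, hX, hXR, hXA, hXb⟩ := hA.avoid s hsA
      refine ⟨(X ∪ Rect (x1 - 1) x3 (y2 + 2) y4) ∪ {(x2 + 1, y4 + 1)},
        closed_union (closed_union hX (closed_rect _ _ _ _) ?_)
          (closed_single _ _) (far_union_left ?_ ?_), ?_, ?_, ?_⟩
      · rintro ⟨a, b⟩ hu ⟨c, d⟩ hw
        have h1 := hXR hu
        have h2 := hXb _ hu
        simp only [Rect, Set.mem_ofPred_eq] at *; omega
      · rintro ⟨a, b⟩ hu ⟨c, d⟩ hw
        have h1 := hXR hu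
        simp only [Rect, Set.mem_ofPred_eq, Set.mem_singleton_iff, Prod.mk.injEq] at *; omega
      · rintro ⟨a, b⟩ hu ⟨c, d⟩ hw
        simp only [Rect, Set.mem_ofPred_eq, Set.mem_singleton_iff, Prod.mk.injEq] at *; omega
      · rintro ⟨a, b⟩ ((hv | hv) | hv)
        · have h1 := hXR hv
          simp only [Rect, Set.mem_ofPred_eq] at *; omega
        · simp only [Rect, Set.mem_ofPred_eq] at *; omega
        · simp only [Rect, Set.mem_ofPred_eq, Set.mem_singleton_iff, Prod.mk.injEq] at *; omega
      · intro v hv hne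
        rcases Finset.mem_insert.1 hv with rfl | hv
        · refine Or.inl (Or.inr ?_)
          simp only [Rect, Set.mem_ofPred_eq]; omega
        rcases Finset.mem_insert.1 hv with rfl | hv
        · exact Or.inr rfl
        rcases Finset.mem_union.1 hv with hv | hv
        · exact Or.inl (Or.inl (hXA v hv hne))
        · refine Or.inl (Or.inr ?_)
          have := hT.sub v hv
          simp only [Rect, Set.mem_ofPred_eq] at *; omega
      · rintro ⟨a, b⟩ ((hv | hv) | hv)
        · have h1 := hXR hv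
          simp only [Rect, Set.mem_ofPred_eq] at *; omega
        · simp only [Rect, Set.mem_ofPred_eq] at *; omega
        · simp only [Set.mem_ofPred_eq, Set.mem_singleton_iff, Prod.mk.injEq] at *; omega
    · -- removed site in the upper block
      obtain ⟨X, hX, hXR, hXA, hXb⟩ := hT.avoid s hsT
      refine ⟨((X ∪ Rect x1 x2 y1 y2) ∪ {(x1 - 1, y2 + 2)}) ∪ {(x2 + 1, y4 + 1)},
        closed_union (closed_union (closed_union hX (closed_rect _ _ _ _) ?_)
          (closed_single _ _) (far_union_left ?_ ?_)) (closed_single _ _)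
          (far_union_left (far_union_left ?_ ?_) ?_), ?_, ?_, ?_⟩
      · rintro ⟨a, b⟩ hu ⟨c, d⟩ hw
        have h1 := hXR hu
        simp only [Rect, Set.mem_ofPred_eq] at *; omega
      · rintro ⟨a, b⟩ hu ⟨c, d⟩ hw
        have h1 := hXR hu
        have h2 := hXb _ hu
        simp only [Rect, Set.mem_ofPred_eq, Set.mem_singleton_iff, Prod.mk.injEq] at *; omega
      · rintro ⟨a, b⟩ hu ⟨c, d⟩ hw
        simp only [Rect, Set.mem_ofPred_eq, Set.mem_singleton_iff, Prod.mk.injEq] at *; omega
      · rintro ⟨a, b⟩ hu ⟨c, d⟩ hw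
        have h1 := hXR hu
        simp only [Rect, Set.mem_ofPred_eq, Set.mem_singleton_iff, Prod.mk.injEq] at *; omega
      · rintro ⟨a, b⟩ hu ⟨c, d⟩ hw
        simp only [Rect, Set.mem_ofPred_eq, Set.mem_singleton_iff, Prod.mk.injEq] at *; omega
      · rintro ⟨a, b⟩ hu ⟨c, d⟩ hw
        simp only [Set.mem_singleton_iff, Prod.mk.injEq] at *; omega
      · rintro ⟨a, b⟩ (((hv | hv) | hv) | hv)
        · have h1 := hXR hv
          simp only [Rect, Set.mem_ofPred_eq] at *; omega
        · simp only [Rect, Set.mem_ofPred_eq] at *; omega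
        · simp only [Rect, Set.mem_ofPred_eq, Set.mem_singleton_iff, Prod.mk.injEq] at *; omega
        · simp only [Rect, Set.mem_ofPred_eq, Set.mem_singleton_iff, Prod.mk.injEq] at *; omega
      · intro v hv hne
        rcases Finset.mem_insert.1 hv with rfl | hv
        · exact Or.inl (Or.inr rfl)
        rcases Finset.mem_insert.1 hv with rfl | hv
        · exact Or.inr rfl
        rcases Finset.mem_union.1 hv with hv | hv
        · exact Or.inl (Or.inl (Or.inr (hA.sub v hv)))
        · exact Or.inl (Or.inl (Or.inl (hXA v hv hne)))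
      · rintro ⟨a, b⟩ (((hv | hv) | hv) | hv)
        · have h1 := hXR hv
          simp only [Rect, Set.mem_ofPred_eq] at *; omega
        · simp only [Rect, Set.mem_ofPred_eq] at *; omega
        · simp only [Set.mem_ofPred_eq, Set.mem_singleton_iff, Prod.mk.injEq] at *; omega
        · simp only [Set.mem_ofPred_eq, Set.mem_singleton_iff, Prod.mk.injEq] at *; omega

end R495.MP
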